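import Pool.Agent.Lib.H35E.C

/-!
# MP_e31573_nt: critical polynomials are sparse

Let `τ` be the integer transfinite diameter of `[0,1]`; an irreducible integer polynomial `Q` with all zeros in `[0,1]`, degree `d` and leading
coefficient `a > 0` is critical if `a τ ^ d < 1`. For finitely many different critical polynomials the sum of `g / (1 + log (d / g))`,
`g = min (1, - log (a τ ^ d))`, is at most `6`; so at most `6 (1 + log (D / ε)) / ε` of the critical polynomials of degree `≤ D` have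
`a τ ^ d ≤ 1 - ε`.
-/

namespace Pool.Agent.Results.MP_e31573_nt.SparseCritical

open Filter Topology

theorem result : ∀ τ : ℝ,
    Tendsto
        (fun n : ℕ =>
          (sInf {y : ℝ | ∃ P : Polynomial ℤ, P ≠ 0 ∧ P.natDegree ≤ n ∧
              y = sSup ((fun x : ℝ => |Polynomial.aeval x P|) '' Set.Icc (0:ℝ) 1)})
            ^ ((1:ℝ) / (n:ℝ)))
        atTop (𝓝 τ) →
    (∀ S : Finset (Polynomial ℤ),
      (∀ Q ∈ S, Irreducible Q ∧ 0 < Q.natDegree ∧ 0 < Q.leadingCoeff ∧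
        (∀ z : ℂ, Polynomial.aeval z Q = 0 → z.im = 0 ∧ 0 ≤ z.re ∧ z.re ≤ 1) ∧
        (Q.leadingCoeff : ℝ) * τ ^ Q.natDegree < 1) →
      ∑ Q ∈ S, min 1 (-Real.log ((Q.leadingCoeff : ℝ) * τ ^ Q.natDegree)) /
        (1 + Real.log (Q.natDegree / min 1 (-Real.log ((Q.leadingCoeff : ℝ) * τ ^ Q.natDegree)))) ≤ 6) ∧
    (∀ ε D : ℝ, 0 < ε → ε ≤ 1 → 1 ≤ D → ∀ S : Finset (Polynomial ℤ),
      (∀ Q ∈ S, Irreducible Q ∧ 0 < Q.natDegree ∧ (Q.natDegree : ℝ) ≤ D ∧ 0 < Q.leadingCoeff ∧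
        (∀ z : ℂ, Polynomial.aeval z Q = 0 → z.im = 0 ∧ 0 ≤ z.re ∧ z.re ≤ 1) ∧
        (Q.leadingCoeff : ℝ) * τ ^ Q.natDegree ≤ 1 - ε) →
      (S.card : ℝ) ≤ 6 * (1 + Real.log (D / ε)) / ε) := by
  intro τ hτ
  refine ⟨?_, ?_⟩
  · intro S hS
    exact Pool.Agent.Lib.H35E.c_sparse hτ S (fun Q hQ => ⟨(hS Q hQ).1, (hS Q hQ).2.1, (hS Q hQ).2.2.2.1⟩)
      (fun Q hQ => (hS Q hQ).2.2.1) (fun Q hQ => (hS Q hQ).2.2.2.2)
  · intro ε D hε hε1 hD S hS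
    rw [le_div_iff₀ hε]
    exact Pool.Agent.Lib.H35E.c_count hτ ε D hε hε1 hD S
      (fun Q hQ => ⟨(hS Q hQ).1, (hS Q hQ).2.1, (hS Q hQ).2.2.2.2.1⟩)
      (fun Q hQ => (hS Q hQ).2.2.2.1) (fun Q hQ => (hS Q hQ).2.2.1) (fun Q hQ => (hS Q hQ).2.2.2.2.2)

end Pool.Agent.Results.MP_e31573_nt.SparseCritical
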