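import Pool.Agent.Lib.H35E.C

/-!
# MP_e31573_nt: the least leading coefficient up to a polynomial factor, and the rate of convergence

Let `τ` be the integer transfinite diameter of `[0,1]`. There is an absolute constant `C` such that for every `n ≥ 1` the least leading
coefficient `a_n` of an irreducible integer polynomial of degree `n` with all zeros in `[0,1]` satisfies
`1 / (8 n ^ 2) ≤ a_n τ ^ n ≤ (n + 1) ^ C` (the upper bound is attained by polynomials with `n` simple zeros in `(0,1)`), and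
some nonzero integer polynomial `P`, all of whose irreducible factors have degree at most `n`, satisfies
`|P| < (τ (n+1) ^ (C/n)) ^ (deg P)` on `[0,1]`.
-/

namespace Pool.Agent.Results.MP_e31573_nt.Window

open Filter Topology

theorem result : ∃ C : ℕ, ∀ τ : ℝ,
    Tendsto
        (fun n : ℕ =>
          (sInf {y : ℝ | ∃ P : Polynomial ℤ, P ≠ 0 ∧ P.natDegree ≤ n ∧
              y = sSup ((fun x : ℝ => |Polynomial.aeval x P|) '' Set.Icc (0:ℝ) 1)})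
            ^ ((1:ℝ) / (n:ℝ)))
        atTop (𝓝 τ) →
    ∀ n : ℕ, 1 ≤ n →
      (∃ Q : Polynomial ℤ, Irreducible Q ∧ Q.natDegree = n ∧
        (∀ z : ℂ, Polynomial.aeval z Q = 0 → z.im = 0 ∧ 0 < z.re ∧ z.re < 1) ∧
        (Q.map (algebraMap ℤ ℂ)).roots.Nodup ∧
        0 < Q.leadingCoeff ∧ (Q.leadingCoeff : ℝ) * τ ^ n ≤ ((n:ℝ) + 1) ^ C) ∧
      (∀ Q : Polynomial ℤ, Irreducible Q → Q.natDegree = n →
        (∀ z : ℂ, Polynomial.aeval z Q = 0 → z.im = 0 ∧ 0 ≤ z.re ∧ z.re ≤ 1) →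
        1 ≤ 8 * (n:ℝ) ^ 2 * (|((Q.leadingCoeff : ℤ) : ℝ)| * τ ^ n)) ∧
      (∃ P : Polynomial ℤ, P ≠ 0 ∧
        (∀ F : Polynomial ℤ, Irreducible F → F ∣ P → F.natDegree ≤ n) ∧
        ∀ x ∈ Set.Icc (0:ℝ) 1,
          |Polynomial.aeval x P| < (τ * ((n:ℝ) + 1) ^ ((C:ℝ) / n)) ^ P.natDegree) := by
  obtain ⟨C₁, hC₁⟩ := Pool.Agent.Lib.H32R.f5_near
  obtain ⟨C₂, hC₂⟩ := Pool.Agent.Lib.H35E.c_rate
  refine ⟨max C₁ C₂, fun τ hτ n hn => ⟨?_, ?_, ?_⟩⟩
  · obtain ⟨Q, hQ, hd, hz, hs, h0, h⟩ := hC₁ τ hτ n hn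
    refine ⟨Q, hQ, hd, hz, hs, h0, h.trans ?_⟩
    have h1 : (1:ℝ) ≤ (n:ℝ) + 1 := by
      have : (0:ℝ) ≤ (n:ℝ) := Nat.cast_nonneg n
      linarith
    exact pow_le_pow_right₀ h1 (le_max_left _ _)
  · intro Q hQ hd hz
    have h := Pool.Agent.Lib.H35E.c_lower hτ Q ⟨hQ, by omega, hz⟩
    rwa [hd] at h
  · obtain ⟨P, hP, hF, hx⟩ := hC₂ τ hτ n hn
    refine ⟨P, hP, hF, fun x hxx => (hx x hxx).trans_le ?_⟩
    have hτ0 : 0 ≤ τ := by
      refine ge_of_tendsto' hτ (fun m => ?_)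
      apply Real.rpow_nonneg
      apply Real.sInf_nonneg
      rintro y ⟨P, _, _, rfl⟩
      apply Real.sSup_nonneg
      rintro y ⟨x, _, rfl⟩
      exact abs_nonneg _
    have h1 : (1:ℝ) ≤ (n:ℝ) + 1 := by
      have : (0:ℝ) ≤ (n:ℝ) := Nat.cast_nonneg n
      linarith
    have hn0 : (0:ℝ) < n := by exact_mod_cast hn
    have h2 : ((n:ℝ) + 1) ^ ((C₂:ℝ) / n) ≤ ((n:ℝ) + 1) ^ (((max C₁ C₂ : ℕ) : ℝ) / n) := by
      apply Real.rpow_le_rpow_of_exponent_le h1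
      apply div_le_div_of_nonneg_right _ hn0.le
      exact_mod_cast le_max_right C₁ C₂
    apply pow_le_pow_left₀
    · exact mul_nonneg hτ0 (Real.rpow_nonneg (by linarith) _)
    · exact mul_le_mul_of_nonneg_left h2 hτ0

end Pool.Agent.Results.MP_e31573_nt.Window
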